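import Mathlib

/-!
# Project AW (helper848), part LA2: linear algebra over F_2 (helper691)

The number of the tuples of vectors of a finite space over F_2 with an alternating form which are
orthogonal to each other.
-/

set_option autoImplicit false

open scoped Classical

namespace Pool.Agent.N691.AW

open Finset

noncomputable section

/-- the character of `𝔽_2` -/
def ch (z : ZMod 2) : ℝ := if z = 0 then 1 else -1

theorem zc (z : ZMod 2) : z = 0 ∨ z = 1 := by revert z; decide

theorem ch_add_one (z : ZMod 2) : ch (z + 1) = -ch z := by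
  rcases zc z with rfl | rfl
  · simp [ch]
  · have : (1 : ZMod 2) + 1 = 0 := by decide
    simp [ch, this]

theorem sum_ch {G : Type} [AddCommGroup G] [Fintype G] (f : G → ZMod 2)
    (hf : ∀ x y, f (x + y) = f x + f y) :
    ∑ g, ch (f g) = if ∀ g, f g = 0 then (Fintype.card G : ℝ) else 0 := by
  split_ifs with h
  · simp [h, ch]
  · push Not at h
    obtain ⟨g0, hg0⟩ := h
    have h1 : f g0 = 1 := (zc _).resolve_left hg0
    have h2 : ∑ g, ch (f (g + g0)) = ∑ g, ch (f g) :=
      Equiv.sum_comp (Equiv.addRight g0) (fun g => ch (f g))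
    have h3 : ∑ g, ch (f (g + g0)) = -∑ g, ch (f g) := by
      rw [← Finset.sum_neg_distrib]
      exact Finset.sum_congr rfl fun g _ => by rw [hf, h1, ch_add_one]
    linarith

theorem fib {G H : Type} [AddCommGroup G] [AddCommGroup H] [Fintype G] [Fintype H] (f : G →+ H)
    (hf : Function.Surjective f) (T : Finset H) :
    (univ.filter fun g => f g ∈ T).card * Fintype.card H = T.card * Fintype.card G := by
  have h1 : ∀ y : H, (univ.filter fun g => f g = y).card = (univ.filter fun g => f g = 0).card :=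
    fun y => AddMonoidHom.card_fiber_eq_of_mem_range f (hf y) (hf 0)
  have h2 : ∀ S : Finset H, (univ.filter fun g => f g ∈ S).card =
      S.card * (univ.filter fun g => f g = 0).card := by
    intro S
    rw [Finset.card_eq_sum_card_fiberwise (f := f) (t := S) (by intro g hg; simpa using hg)]
    rw [Finset.sum_congr rfl (g := fun _ => (univ.filter fun g => f g = 0).card)]
    · rw [Finset.sum_const, smul_eq_mul]
    · intro y hy
      rw [← h1 y]
      congr 1
      ext g
      simp only [Finset.mem_filter, Finset.mem_univ, true_and]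
      constructor
      · rintro ⟨-, h⟩; exact h
      · intro h; exact ⟨by rw [h]; exact hy, h⟩
  have h3 := h2 univ
  simp only [Finset.mem_univ, Finset.filter_true, Finset.card_univ] at h3
  rw [h2 T, h3]; ring

section abs

variable {L : Type} [AddCommGroup L] [Module (ZMod 2) L] [Fintype L]

theorem lin_fib {m : ℕ} (a : Fin m → ZMod 2) (ha : ∃ i, a i ≠ 0) (T : Finset L) :
    (univ.filter fun x : Fin m → L => ∑ i, a i • x i ∈ T).card * Fintype.card L =
      T.card * Fintype.card L ^ m := by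
  obtain ⟨i0, hi0⟩ := ha
  have hi1 : a i0 = 1 := (zc _).resolve_left hi0
  let f : (Fin m → L) →+ L := AddMonoidHom.mk' (fun x => ∑ i, a i • x i) (by
    intro x y
    simp only [Pi.add_apply, smul_add, Finset.sum_add_distrib])
  have hf : Function.Surjective f := by
    intro y
    refine ⟨Pi.single i0 y, ?_⟩
    show ∑ i, a i • (Pi.single i0 y : Fin m → L) i = y
    rw [Finset.sum_eq_single i0]
    · rw [Pi.single_eq_same, hi1, one_smul]
    · intro i _ hi
      rw [Pi.single_eq_of_ne hi, smul_zero]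
    · intro h; exact absurd (Finset.mem_univ _) h
  have h := fib f hf T
  rw [Fintype.card_fun, Fintype.card_fin] at h
  exact h

/-- the tuples orthogonal to each other -/
def Zs (P : L →ₗ[ZMod 2] L →ₗ[ZMod 2] ZMod 2) (m : ℕ) : Finset (Fin m → L) :=
  univ.filter fun x => ∀ i j, P (x i) (x j) = 0

/-- the radical -/
def Rd (P : L →ₗ[ZMod 2] L →ₗ[ZMod 2] ZMod 2) : Finset L := univ.filter fun x => ∀ y, P x y = 0

theorem cnt0 (P : L →ₗ[ZMod 2] L →ₗ[ZMod 2] ZMod 2) {m : ℕ} (x : Fin m → L) :
    (2 : ℝ) ^ m * ((univ.filter fun y => ∀ i, P (x i) y = 0).card : ℝ) =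
      Fintype.card L * ((univ.filter fun a : Fin m → ZMod 2 => ∑ i, a i • x i ∈ Rd P).card : ℝ) := by
  have e1 : ∑ a : Fin m → ZMod 2, ∑ y : L, ch (P (∑ i, a i • x i) y) =
      Fintype.card L *
        ((univ.filter fun a : Fin m → ZMod 2 => ∑ i, a i • x i ∈ Rd P).card : ℝ) := by
    rw [Finset.card_filter, Nat.cast_sum, Finset.mul_sum]
    apply Finset.sum_congr rfl
    intro a _
    rw [sum_ch (fun y => P (∑ i, a i • x i) y) (fun y z => map_add _ _ _)]
    by_cases h : ∀ g, P (∑ i, a i • x i) g = 0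
    · have h' : ∑ i, a i • x i ∈ Rd P := by simp only [Rd, Finset.mem_filter]; exact ⟨mem_univ _, h⟩
      rw [if_pos h, if_pos h', Nat.cast_one, mul_one]
    · have h' : ¬ ∑ i, a i • x i ∈ Rd P := by
        simp only [Rd, Finset.mem_filter]
        rintro ⟨-, h2⟩; exact h h2
      rw [if_neg h, if_neg h', Nat.cast_zero, mul_zero]
  have e2 : ∑ a : Fin m → ZMod 2, ∑ y : L, ch (P (∑ i, a i • x i) y) =
      (2 : ℝ) ^ m * ((univ.filter fun y => ∀ i, P (x i) y = 0).card : ℝ) := by
    rw [Finset.sum_comm, Finset.card_filter, Nat.cast_sum, Finset.mul_sum]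
    apply Finset.sum_congr rfl
    intro y _
    rw [sum_ch (fun a : Fin m → ZMod 2 => P (∑ i, a i • x i) y) (by
      intro a b
      simp only [Pi.add_apply, add_smul, Finset.sum_add_distrib, map_add, LinearMap.add_apply])]
    by_cases h : ∀ i, P (x i) y = 0
    · have h' : ∀ a : Fin m → ZMod 2, P (∑ i, a i • x i) y = 0 := by
        intro a
        rw [map_sum, LinearMap.sum_apply]
        apply Finset.sum_eq_zero
        intro i _
        rw [map_smul, LinearMap.smul_apply, h i, smul_zero]
      rw [if_pos h', if_pos h, Fintype.card_fun, ZMod.card, Fintype.card_fin]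
      push_cast
      ring
    · have h' : ¬ ∀ a : Fin m → ZMod 2, P (∑ i, a i • x i) y = 0 := by
        intro h2
        apply h
        intro i
        have h3 := h2 (Pi.single i 1)
        have h4 : ∑ j, (Pi.single i 1 : Fin m → ZMod 2) j • x j = x i := by
          rw [Finset.sum_eq_single i]
          · rw [Pi.single_eq_same, one_smul]
          · intro j _ hj; rw [Pi.single_eq_of_ne hj, zero_smul]
          · intro h; exact absurd (Finset.mem_univ _) h
        rwa [h4] at h3
      rw [if_neg h', if_neg h, Nat.cast_zero, mul_zero]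
  rw [← e1, e2]

theorem Zs_succ (P : L →ₗ[ZMod 2] L →ₗ[ZMod 2] ZMod 2) (hsym : ∀ x y, P x y = P y x)
    (halt : ∀ x, P x x = 0) (m : ℕ) :
    (Zs P (m + 1)).card = ∑ x ∈ Zs P m, (univ.filter fun y => ∀ i, P (x i) y = 0).card := by
  have h1 : ∀ (y : L) (x : Fin m → L), (∀ i j : Fin (m + 1),
      P ((Fin.cons y x : Fin (m + 1) → L) i) ((Fin.cons y x : Fin (m + 1) → L) j) = 0) ↔
      (∀ i j, P (x i) (x j) = 0) ∧ ∀ i, P (x i) y = 0 := by
    intro y x
    constructor
    · intro h
      refine ⟨fun i j => ?_, fun i => ?_⟩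
      · have := h i.succ j.succ
        rwa [Fin.cons_succ, Fin.cons_succ] at this
      · have := h i.succ 0
        rwa [Fin.cons_succ, Fin.cons_zero] at this
    · rintro ⟨h2, h3⟩ i j
      refine Fin.cases ?_ (fun i => ?_) i
      · refine Fin.cases ?_ (fun j => ?_) j
        · rw [Fin.cons_zero]; exact halt y
        · rw [Fin.cons_zero, Fin.cons_succ, hsym]; exact h3 j
      · refine Fin.cases ?_ (fun j => ?_) j
        · rw [Fin.cons_zero, Fin.cons_succ]; exact h3 i
        · rw [Fin.cons_succ, Fin.cons_succ]; exact h2 i j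
  have h2 : (Zs P (m + 1)).card = ∑ yx : L × (Fin m → L),
      if (∀ i j, P (yx.2 i) (yx.2 j) = 0) ∧ ∀ i, P (yx.2 i) yx.1 = 0 then 1 else 0 := by
    unfold Zs
    rw [Finset.card_filter, ← Equiv.sum_comp (Fin.consEquiv fun _ => L)]
    apply Finset.sum_congr rfl
    rintro ⟨y, x⟩ _
    have h3 := h1 y x
    by_cases h4 : (∀ i j, P (x i) (x j) = 0) ∧ ∀ i, P (x i) y = 0
    · rw [if_pos h4]; exact if_pos (h3.2 h4)
    · rw [if_neg h4]; exact if_neg (fun h5 => h4 (h3.1 h5))
  rw [h2, Fintype.sum_prod_type_right]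
  unfold Zs
  rw [Finset.sum_filter]
  apply Finset.sum_congr rfl
  intro x _
  by_cases h4 : ∀ i j, P (x i) (x j) = 0
  · rw [if_pos h4, Finset.card_filter]
    apply Finset.sum_congr rfl
    intro y _
    by_cases h5 : ∀ i, P (x i) y = 0
    · rw [if_pos ⟨h4, h5⟩, if_pos h5]
    · rw [if_neg (fun h => h5 h.2), if_neg h5]
  · rw [if_neg h4]
    apply Finset.sum_eq_zero
    intro y _
    rw [if_neg (fun h => h4 h.1)]

theorem alg1 (p Z l S c q : ℝ) (hl : l ≠ 0) (hq : q ≠ 0) (h : p * Z = l * S) :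
    Z * (p * c) / (q * l) = S * c / q := by
  rw [div_eq_div_iff (mul_ne_zero hq hl) hq]
  linear_combination (c * q) * h

theorem alg2 (Z c q p R l : ℝ) (hl : l ≠ 0) (hq : q ≠ 0) :
    Z * c / q + p * c * (R / l) = (Z + p * (R * q / l)) * c / q := by
  field_simp

/-- the normalised number of the tuples -/
def zz (P : L →ₗ[ZMod 2] L →ₗ[ZMod 2] ZMod 2) (m : ℕ) : ℝ :=
  (Zs P m).card * 2 ^ m.choose 2 / (Fintype.card L : ℝ) ^ m

theorem zz_succ (P : L →ₗ[ZMod 2] L →ₗ[ZMod 2] ZMod 2) (hsym : ∀ x y, P x y = P y x)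
    (halt : ∀ x, P x x = 0) (m : ℕ) :
    zz P m ≤ zz P (m + 1) ∧
      zz P (m + 1) ≤ zz P m + 2 ^ (m + 1).choose 2 * ((Rd P).card / Fintype.card L) := by
  have hL : (0 : ℝ) < Fintype.card L := by exact_mod_cast Fintype.card_pos
  set S : ℝ := ∑ x ∈ Zs P m,
    ((univ.filter fun a : Fin m → ZMod 2 => ∑ i, a i • x i ∈ Rd P).card : ℝ) with hS
  have e1 : (2 : ℝ) ^ m * ((Zs P (m + 1)).card : ℝ) = Fintype.card L * S := by
    rw [Zs_succ P hsym halt, Nat.cast_sum, Finset.mul_sum, hS, Finset.mul_sum]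
    exact Finset.sum_congr rfl fun x _ => cnt0 P x
  have e2 : ((Zs P m).card : ℝ) ≤ S := by
    rw [hS, Finset.card_eq_sum_ones, Nat.cast_sum]
    apply Finset.sum_le_sum
    intro x _
    have : 1 ≤ (univ.filter fun a : Fin m → ZMod 2 => ∑ i, a i • x i ∈ Rd P).card := by
      rw [Nat.one_le_iff_ne_zero, ← Nat.pos_iff_ne_zero, Finset.card_pos]
      refine ⟨0, ?_⟩
      simp [Rd]
    exact_mod_cast this
  have e3 : S ≤ (Zs P m).card + 2 ^ m * ((Rd P).card * (Fintype.card L : ℝ) ^ m /
      Fintype.card L) := by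
    have f1 : S = ∑ a : Fin m → ZMod 2,
        (((Zs P m).filter fun x => ∑ i, a i • x i ∈ Rd P).card : ℝ) := by
      rw [hS]
      simp only [Finset.card_filter, Nat.cast_sum]
      rw [Finset.sum_comm]
    rw [f1, ← Finset.add_sum_erase univ _ (Finset.mem_univ (0 : Fin m → ZMod 2))]
    apply add_le_add
    · exact_mod_cast Finset.card_filter_le _ _
    · have f2 : ∀ a ∈ univ.erase (0 : Fin m → ZMod 2),
          (((Zs P m).filter fun x => ∑ i, a i • x i ∈ Rd P).card : ℝ) ≤
          (Rd P).card * (Fintype.card L : ℝ) ^ m / Fintype.card L := by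
        intro a ha
        rw [le_div_iff₀ hL]
        have f3 : ∃ i, a i ≠ 0 := by
          by_contra hcon
          push Not at hcon
          exact (Finset.mem_erase.1 ha).1 (funext hcon)
        have f4 := lin_fib a f3 (Rd P)
        have f5 : ((Zs P m).filter fun x => ∑ i, a i • x i ∈ Rd P).card ≤
            (univ.filter fun x : Fin m → L => ∑ i, a i • x i ∈ Rd P).card := by
          apply Finset.card_le_card
          apply Finset.filter_subset_filter
          exact Finset.subset_univ _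
        have f6 : ((univ.filter fun x : Fin m → L => ∑ i, a i • x i ∈ Rd P).card : ℝ) *
            Fintype.card L = (Rd P).card * (Fintype.card L : ℝ) ^ m := by exact_mod_cast f4
        have f7 : (((Zs P m).filter fun x => ∑ i, a i • x i ∈ Rd P).card : ℝ) ≤
            ((univ.filter fun x : Fin m → L => ∑ i, a i • x i ∈ Rd P).card : ℝ) := by
          exact_mod_cast f5
        rw [← f6]
        exact mul_le_mul_of_nonneg_right f7 hL.le
      refine (Finset.sum_le_sum f2).trans ?_
      rw [Finset.sum_const, nsmul_eq_mul]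
      apply mul_le_mul_of_nonneg_right _ (by positivity)
      have f8 : (univ.erase (0 : Fin m → ZMod 2)).card ≤ 2 ^ m := by
        refine (Finset.card_le_card (Finset.erase_subset _ _)).trans ?_
        rw [Finset.card_univ, Fintype.card_fun, ZMod.card, Fintype.card_fin]
      exact_mod_cast f8
  have e4 : zz P (m + 1) = S * 2 ^ m.choose 2 / (Fintype.card L : ℝ) ^ m := by
    unfold zz
    have hc : (m + 1).choose 2 = m + m.choose 2 := by
      rw [Nat.choose_succ_succ' m 1, Nat.choose_one_right]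
    rw [hc, pow_add, pow_succ]
    exact alg1 _ _ _ _ _ _ hL.ne' (pow_pos hL m).ne' e1
  have e5 : zz P m + 2 ^ (m + 1).choose 2 * ((Rd P).card / Fintype.card L) =
      ((Zs P m).card + 2 ^ m * ((Rd P).card * (Fintype.card L : ℝ) ^ m /
      Fintype.card L)) * 2 ^ m.choose 2 / (Fintype.card L : ℝ) ^ m := by
    unfold zz
    have hc : (m + 1).choose 2 = m + m.choose 2 := by
      rw [Nat.choose_succ_succ' m 1, Nat.choose_one_right]
    rw [hc, pow_add]
    exact alg2 _ _ _ _ _ _ hL.ne' (pow_pos hL m).ne'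
  constructor
  · rw [e4]
    unfold zz
    gcongr
  · rw [e5, e4]
    gcongr

theorem zz_bd (P : L →ₗ[ZMod 2] L →ₗ[ZMod 2] ZMod 2) (hsym : ∀ x y, P x y = P y x)
    (halt : ∀ x, P x x = 0) (m : ℕ) :
    1 ≤ zz P m ∧ zz P m ≤ 1 + (∑ k ∈ range m, (2 : ℝ) ^ (k + 1).choose 2) *
      ((Rd P).card / Fintype.card L) := by
  induction m with
  | zero =>
    have : zz P 0 = 1 := by
      unfold zz Zs
      simp
    rw [this]
    simp
  | succ m ih =>
    obtain ⟨h1, h2⟩ := zz_succ P hsym halt m
    rw [Finset.sum_range_succ, add_mul]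
    constructor <;> linarith [ih.1, ih.2]

theorem bad_bd {m : ℕ} (T : Finset L) :
    ((univ.filter fun x : Fin m → L => ∃ a : Fin m → ZMod 2, (∃ i, a i ≠ 0) ∧
      ∑ i, a i • x i ∈ T).card : ℝ) ≤
    2 ^ m * (T.card * (Fintype.card L : ℝ) ^ m / Fintype.card L) := by
  have hL : (0 : ℝ) < Fintype.card L := by exact_mod_cast Fintype.card_pos
  have h1 : (univ.filter fun x : Fin m → L => ∃ a : Fin m → ZMod 2, (∃ i, a i ≠ 0) ∧
      ∑ i, a i • x i ∈ T) ⊆ (univ.filter fun a : Fin m → ZMod 2 => ∃ i, a i ≠ 0).biUnion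
        fun a => univ.filter fun x : Fin m → L => ∑ i, a i • x i ∈ T := by
    intro x hx
    rw [Finset.mem_filter] at hx
    obtain ⟨-, a, ha, hT⟩ := hx
    rw [Finset.mem_biUnion]
    exact ⟨a, Finset.mem_filter.2 ⟨mem_univ _, ha⟩, Finset.mem_filter.2 ⟨mem_univ _, hT⟩⟩
  have h2 := (Finset.card_le_card h1).trans Finset.card_biUnion_le
  have h3 : ((univ.filter fun x : Fin m → L => ∃ a : Fin m → ZMod 2, (∃ i, a i ≠ 0) ∧
      ∑ i, a i • x i ∈ T).card : ℝ) ≤ ∑ a ∈ (univ.filter fun a : Fin m → ZMod 2 => ∃ i, a i ≠ 0),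
        ((univ.filter fun x : Fin m → L => ∑ i, a i • x i ∈ T).card : ℝ) := by
    exact_mod_cast h2
  refine h3.trans ?_
  have h4 : ∀ a ∈ (univ.filter fun a : Fin m → ZMod 2 => ∃ i, a i ≠ 0),
      ((univ.filter fun x : Fin m → L => ∑ i, a i • x i ∈ T).card : ℝ) ≤
        T.card * (Fintype.card L : ℝ) ^ m / Fintype.card L := by
    intro a ha
    rw [le_div_iff₀ hL]
    have := lin_fib a (Finset.mem_filter.1 ha).2 T
    exact_mod_cast this.le
  refine (Finset.sum_le_sum h4).trans ?_
  rw [Finset.sum_const, nsmul_eq_mul]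
  apply mul_le_mul_of_nonneg_right _ (by positivity)
  have f8 : (univ.filter fun a : Fin m → ZMod 2 => ∃ i, a i ≠ 0).card ≤ 2 ^ m := by
    refine (Finset.card_le_univ _).trans ?_
    rw [Fintype.card_fun, ZMod.card, Fintype.card_fin]
  exact_mod_cast f8

end abs

end

end Pool.Agent.N691.AW
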