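import Pool.Agent.N848.AW.Stm
import Pool.Agent.N691.AW.LA2a

/-!
# Project AW (helper848), part LA2 (helper691)
-/

set_option autoImplicit false

open scoped Classical

namespace Pool.Agent.N691.AW

open Finset

noncomputable section

section conc

open Pool.Agent.N848.AW Pool.Agent.R426.QK

variable {U J : Type} [Fintype U] [Fintype J]

/-- the matrix of the fixed rows -/
def MU (N : U ⊕ J → U ⊕ J → ZMod 2) : Matrix U (U ⊕ J) (ZMod 2) := fun u l => N (Sum.inl u) l

/-- the vectors in the kernel of the fixed rows -/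
def LL (N : U ⊕ J → U ⊕ J → ZMod 2) : Submodule (ZMod 2) (U ⊕ J → ZMod 2) :=
  LinearMap.ker (MU N).mulVecLin

theorem mem_LL (N : U ⊕ J → U ⊕ J → ZMod 2) (x : U ⊕ J → ZMod 2) :
    x ∈ LL N ↔ ∀ u, ∑ l, N (Sum.inl u) l * x l = 0 := by
  unfold LL
  rw [LinearMap.mem_ker, Matrix.mulVecLin_apply]
  constructor
  · intro h u; exact congrFun h u
  · intro h; funext u; exact h u

theorem card_LL (N : U ⊕ J → U ⊕ J → ZMod 2)
    (rows : ∀ w : U → ZMod 2, w ≠ 0 → ∃ l : J, ∑ u, w u * N (Sum.inl u) (Sum.inr l) ≠ 0) :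
    Fintype.card (LL N) = 2 ^ Fintype.card J := by
  have hli : LinearIndependent (ZMod 2) (MU N).row := by
    rw [Fintype.linearIndependent_iff]
    intro g hg
    by_contra hcon
    have h0 : g ≠ 0 := by
      rintro rfl
      exact hcon fun i => rfl
    obtain ⟨l, hl⟩ := rows g h0
    apply hl
    have h1 := congrFun hg (Sum.inr l)
    rw [Finset.sum_apply] at h1
    exact h1
  have hrank := hli.rank_matrix
  have h1 := LinearMap.finrank_range_add_finrank_ker (MU N).mulVecLin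
  rw [Module.finrank_fintype_fun_eq_card, Fintype.card_sum] at h1
  have h2 : Module.finrank (ZMod 2) (LinearMap.range (MU N).mulVecLin) = Fintype.card U := hrank
  have h3 : Module.finrank (ZMod 2) (LL N) = Fintype.card J := by
    show Module.finrank (ZMod 2) (LinearMap.ker (MU N).mulVecLin) = Fintype.card J
    omega
  rw [Module.card_eq_pow_finrank (K := ZMod 2) (V := LL N), h3, ZMod.card]

theorem PP_symm (N : U ⊕ J → U ⊕ J → ZMod 2) (t : J → ZMod 2) (x y : U ⊕ J → ZMod 2) :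
    PP N t x y = PP N t y x := by
  unfold PP
  congr 1
  · rw [Finset.sum_comm]
    apply Finset.sum_congr rfl
    intro k _
    apply Finset.sum_congr rfl
    intro l _
    ring
  · congr 1
    · ring
    · apply Finset.sum_congr rfl
      intro j _
      ring

theorem PP_add (N : U ⊕ J → U ⊕ J → ZMod 2) (t : J → ZMod 2) (x x' y : U ⊕ J → ZMod 2) :
    PP N t (x + x') y = PP N t x y + PP N t x' y := by
  unfold PP
  simp only [Pi.add_apply, add_mul, mul_add, Finset.sum_add_distrib]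
  ring

theorem PP_zero (N : U ⊕ J → U ⊕ J → ZMod 2) (t : J → ZMod 2) (y : U ⊕ J → ZMod 2) :
    PP N t 0 y = 0 := by
  unfold PP
  simp

theorem PP_smul (N : U ⊕ J → U ⊕ J → ZMod 2) (t : J → ZMod 2) (c : ZMod 2)
    (x y : U ⊕ J → ZMod 2) : PP N t (c • x) y = c • PP N t x y := by
  rcases zc c with rfl | rfl
  · rw [zero_smul, zero_smul, PP_zero]
  · rw [one_smul, one_smul]

theorem sq2 (z : ZMod 2) : z * z = z := by revert z; decide

theorem dbl (z : ZMod 2) : z + z = 0 := by revert z; decide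

theorem PP_alt (N : U ⊕ J → U ⊕ J → ZMod 2) (t : J → ZMod 2) (x : U ⊕ J → ZMod 2) :
    PP N t x x = 0 := by
  unfold PP
  have h1 : ∑ k, ∑ l, (N k l + N l k) * (x k * x l) = 0 := by
    have h2 : ∑ k, ∑ l, (N k l + N l k) * (x k * x l) =
        ∑ k, ∑ l, N k l * (x k * x l) + ∑ k, ∑ l, N l k * (x k * x l) := by
      simp only [add_mul, Finset.sum_add_distrib]
    have h3 : ∑ k, ∑ l, N l k * (x k * x l) = ∑ k, ∑ l, N k l * (x k * x l) := by
      rw [Finset.sum_comm]
      apply Finset.sum_congr rfl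
      intro k _
      apply Finset.sum_congr rfl
      intro l _
      ring
    rw [h2, h3, dbl]
  have h4 : ∑ j, t j * (x (Sum.inr j) * x (Sum.inr j)) = ∑ j, t j * x (Sum.inr j) := by
    apply Finset.sum_congr rfl
    intro j _
    rw [sq2]
  rw [h1, h4, sq2, dbl, add_zero]

/-- the form as a bilinear map -/
def PE (N : U ⊕ J → U ⊕ J → ZMod 2) (t : J → ZMod 2) :
    (U ⊕ J → ZMod 2) →ₗ[ZMod 2] (U ⊕ J → ZMod 2) →ₗ[ZMod 2] ZMod 2 :=
  LinearMap.mk₂ (ZMod 2) (PP N t) (PP_add N t) (PP_smul N t)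
    (fun x y z => by rw [PP_symm, PP_add, PP_symm N t y x, PP_symm N t z x])
    (fun c x y => by rw [PP_symm, PP_smul, PP_symm N t y x])

/-- its restriction -/
def PB (N : U ⊕ J → U ⊕ J → ZMod 2) (t : J → ZMod 2) :
    LL N →ₗ[ZMod 2] LL N →ₗ[ZMod 2] ZMod 2 :=
  (PE N t).compl₁₂ (LL N).subtype (LL N).subtype

theorem PB_apply (N : U ⊕ J → U ⊕ J → ZMod 2) (t : J → ZMod 2) (x y : LL N) :
    PB N t x y = PP N t x y := rfl

theorem PP_single (N : U ⊕ J → U ⊕ J → ZMod 2) (t a b : J → ZMod 2)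
    (alt : ∀ k l : J, k ≠ l →
      N (Sum.inr k) (Sum.inr l) + N (Sum.inr l) (Sum.inr k) = a k * b l + b k * a l)
    (x : U ⊕ J → ZMod 2) (j : J) : PP N t x (Pi.single (Sum.inr j) 1) =
      (∑ u, (N (Sum.inl u) (Sum.inr j) + N (Sum.inr j) (Sum.inl u)) * x (Sum.inl u) +
      b j * (∑ k, a k * x (Sum.inr k)) + a j * (∑ k, b k * x (Sum.inr k)) +
      t j * ∑ k, t k * x (Sum.inr k)) + t j * x (Sum.inr j) := by
  have alt' : ∀ k : J, N (Sum.inr k) (Sum.inr j) + N (Sum.inr j) (Sum.inr k) =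
      a k * b j + b k * a j := by
    intro k
    by_cases h : k = j
    · rw [h, dbl, mul_comm (b j), dbl]
    · exact alt k j h
  have h1 : ∑ k, ∑ l, (N k l + N l k) * (x k * (Pi.single (Sum.inr j) 1 : U ⊕ J → ZMod 2) l) =
      ∑ k, (N k (Sum.inr j) + N (Sum.inr j) k) * x k := by
    apply Finset.sum_congr rfl
    intro k _
    rw [Finset.sum_eq_single (Sum.inr j)]
    · rw [Pi.single_eq_same, mul_one]
    · intro l _ hl
      rw [Pi.single_eq_of_ne hl, mul_zero, mul_zero]
    · intro h; exact absurd (Finset.mem_univ _) h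
  have h2 : ∑ i, t i * (Pi.single (Sum.inr j) 1 : U ⊕ J → ZMod 2) (Sum.inr i) = t j := by
    rw [Finset.sum_eq_single j]
    · rw [Pi.single_eq_same, mul_one]
    · intro l _ hl
      rw [Pi.single_eq_of_ne (fun h => hl (Sum.inr_injective h)), mul_zero]
    · intro h; exact absurd (Finset.mem_univ _) h
  have h3 : ∑ i, t i * (x (Sum.inr i) * (Pi.single (Sum.inr j) 1 : U ⊕ J → ZMod 2) (Sum.inr i)) =
      t j * x (Sum.inr j) := by
    rw [Finset.sum_eq_single j]
    · rw [Pi.single_eq_same, mul_one]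
    · intro l _ hl
      rw [Pi.single_eq_of_ne (fun h => hl (Sum.inr_injective h)), mul_zero, mul_zero]
    · intro h; exact absurd (Finset.mem_univ _) h
  unfold PP
  rw [h1, h2, h3, Fintype.sum_sum_type]
  simp only [alt', add_mul]
  rw [Finset.sum_add_distrib, Finset.sum_add_distrib (s := (univ : Finset J)), Finset.mul_sum,
    Finset.mul_sum]
  have h4 : ∑ k, b j * (a k * x (Sum.inr k)) = ∑ k, a k * b j * x (Sum.inr k) :=
    Finset.sum_congr rfl fun k _ => by ring
  have h5 : ∑ k, a j * (b k * x (Sum.inr k)) = ∑ k, b k * a j * x (Sum.inr k) :=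
    Finset.sum_congr rfl fun k _ => by ring
  rw [h4, h5]
  ring

/-- linear functionals -/
def lf (f : U ⊕ J → ZMod 2) : (U ⊕ J → ZMod 2) →ₗ[ZMod 2] ZMod 2 := ∑ l, f l • LinearMap.proj l

theorem lf_apply (f x : U ⊕ J → ZMod 2) : lf f x = ∑ l, f l * x l := by
  unfold lf
  rw [LinearMap.sum_apply]
  rfl

theorem exists_c (N : U ⊕ J → U ⊕ J → ZMod 2) (t : J → ZMod 2) (x : LL N)
    (hx : x ∈ Rd (PB N t)) : ∃ c : U → ZMod 2, ∀ y : U ⊕ J → ZMod 2,
      PP N t x y = ∑ u, c u * ∑ l, N (Sum.inl u) l * y l := by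
  have h1 : ⨅ u : U, LinearMap.ker (lf (N (Sum.inl u))) ≤ LinearMap.ker (PE N t x) := by
    intro y hy
    rw [Submodule.mem_iInf] at hy
    have hy' : y ∈ LL N := by
      rw [mem_LL]
      intro u
      have := hy u
      rwa [LinearMap.mem_ker, lf_apply] at this
    rw [LinearMap.mem_ker]
    have h2 : ∀ y : LL N, PB N t x y = 0 := (Finset.mem_filter.1 hx).2
    exact h2 ⟨y, hy'⟩
  have h2 := mem_span_of_iInf_ker_le_ker h1
  rw [Submodule.mem_span_range_iff_exists_fun] at h2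
  obtain ⟨c, hc⟩ := h2
  refine ⟨c, fun y => ?_⟩
  have h3 : PE N t x y = PP N t x y := rfl
  rw [← h3, ← hc, LinearMap.sum_apply]
  apply Finset.sum_congr rfl
  intro u _
  rw [LinearMap.smul_apply, lf_apply, smul_eq_mul]

theorem Rd_bd (N : U ⊕ J → U ⊕ J → ZMod 2) (t a b : J → ZMod 2)
    (alt : ∀ k l : J, k ≠ l →
      N (Sum.inr k) (Sum.inr l) + N (Sum.inr l) (Sum.inr k) = a k * b l + b k * a l)
    (V : ℕ) (hV : 4 * Fintype.card U + V ≤ (univ.filter fun j => t j = 1).card) :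
    (Rd (PB N t)).card * 2 ^ V ≤ 8 * 2 ^ Fintype.card J := by
  let Ψ : (U → ZMod 2) × (U → ZMod 2) × ZMod 2 × ZMod 2 × ZMod 2 × ({j // ¬ t j = 1} → ZMod 2) →
      (U ⊕ J → ZMod 2) := fun p => Sum.elim p.2.1 fun j =>
        if h : t j = 1 then ∑ u, p.1 u * N (Sum.inl u) (Sum.inr j) +
          (∑ u, (N (Sum.inl u) (Sum.inr j) + N (Sum.inr j) (Sum.inl u)) * p.2.1 u +
            b j * p.2.2.1 + a j * p.2.2.2.1 + t j * p.2.2.2.2.1)
        else p.2.2.2.2.2 ⟨j, h⟩
  have h1 : (Rd (PB N t)).image (fun x : LL N => (x : U ⊕ J → ZMod 2)) ⊆ univ.image Ψ := by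
    intro z hz
    rw [Finset.mem_image] at hz
    obtain ⟨x, hx, rfl⟩ := hz
    obtain ⟨c, hc⟩ := exists_c N t x hx
    rw [Finset.mem_image]
    refine ⟨(c, fun u => (x : U ⊕ J → ZMod 2) (Sum.inl u),
      ∑ k, a k * (x : U ⊕ J → ZMod 2) (Sum.inr k), ∑ k, b k * (x : U ⊕ J → ZMod 2) (Sum.inr k),
      ∑ k, t k * (x : U ⊕ J → ZMod 2) (Sum.inr k),
      fun j => (x : U ⊕ J → ZMod 2) (Sum.inr j.1)), Finset.mem_univ _, ?_⟩
    funext l
    rcases l with u | j
    · rfl
    · show (if h : t j = 1 then _ else _) = _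
      split_ifs with h
      · have e1 := PP_single N t a b alt x j
        have e2 := hc (Pi.single (Sum.inr j) 1)
        have e3 : ∀ u, ∑ l, N (Sum.inl u) l * (Pi.single (Sum.inr j) 1 : U ⊕ J → ZMod 2) l =
            N (Sum.inl u) (Sum.inr j) := by
          intro u
          rw [Finset.sum_eq_single (Sum.inr j)]
          · rw [Pi.single_eq_same, mul_one]
          · intro l _ hl
            rw [Pi.single_eq_of_ne hl, mul_zero]
          · intro h; exact absurd (Finset.mem_univ _) h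
        simp only [e3] at e2
        rw [e1] at e2
        show ∑ u, c u * N (Sum.inl u) (Sum.inr j) +
          (∑ u, (N (Sum.inl u) (Sum.inr j) + N (Sum.inr j) (Sum.inl u)) *
              (x : U ⊕ J → ZMod 2) (Sum.inl u) +
            b j * (∑ k, a k * (x : U ⊕ J → ZMod 2) (Sum.inr k)) +
            a j * (∑ k, b k * (x : U ⊕ J → ZMod 2) (Sum.inr k)) +
            t j * ∑ k, t k * (x : U ⊕ J → ZMod 2) (Sum.inr k)) =
          (x : U ⊕ J → ZMod 2) (Sum.inr j)
        rw [← e2]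
        generalize (∑ u, (N (Sum.inl u) (Sum.inr j) + N (Sum.inr j) (Sum.inl u)) *
              (x : U ⊕ J → ZMod 2) (Sum.inl u) +
            b j * (∑ k, a k * (x : U ⊕ J → ZMod 2) (Sum.inr k)) +
            a j * (∑ k, b k * (x : U ⊕ J → ZMod 2) (Sum.inr k)) +
            t j * ∑ k, t k * (x : U ⊕ J → ZMod 2) (Sum.inr k)) = A
        rw [h, one_mul]
        have e4 := dbl A
        linear_combination e4
      · rfl
  have h2 := (Finset.card_le_card h1).trans (Finset.card_image_le)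
  rw [Finset.card_image_of_injective _ Subtype.val_injective, Finset.card_univ] at h2
  simp only [Fintype.card_prod, Fintype.card_fun, ZMod.card] at h2
  have h3 : Fintype.card {j // ¬ t j = 1} =
      Fintype.card J - (univ.filter fun j => t j = 1).card := by
    rw [Fintype.card_subtype_compl, Fintype.card_subtype]
  rw [h3] at h2
  have h4 : (univ.filter fun j => t j = 1).card ≤ Fintype.card J := Finset.card_le_univ _
  set n := (univ.filter fun j => t j = 1).card with hn
  calc (Rd (PB N t)).card * 2 ^ V ≤ (2 ^ Fintype.card U * (2 ^ Fintype.card U *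
        (2 * (2 * (2 * 2 ^ (Fintype.card J - n)))))) * 2 ^ V := Nat.mul_le_mul_right _ h2
    _ = 8 * 2 ^ (Fintype.card U + Fintype.card U + (Fintype.card J - n) + V) := by
        rw [pow_add, pow_add, pow_add]; ring
    _ ≤ 8 * 2 ^ Fintype.card J := by
        apply Nat.mul_le_mul_left
        apply Nat.pow_le_pow_right (by norm_num)
        omega

/-- the vectors with constant coordinates in `J` -/
def TT (N : U ⊕ J → U ⊕ J → ZMod 2) : Finset (LL N) :=
  univ.filter fun y => ∀ k l : J, (y : U ⊕ J → ZMod 2) (Sum.inr k) +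
    (y : U ⊕ J → ZMod 2) (Sum.inr l) = 0

theorem TT_bd (N : U ⊕ J → U ⊕ J → ZMod 2) (V : ℕ)
    (hV : 4 * Fintype.card U + V ≤ Fintype.card J) :
    (TT N).card * 2 ^ V ≤ 2 * 2 ^ Fintype.card J := by
  let Ψ : (U → ZMod 2) × ZMod 2 → (U ⊕ J → ZMod 2) := fun p => Sum.elim p.1 fun _ => p.2
  have h1 : (TT N).image (fun x : LL N => (x : U ⊕ J → ZMod 2)) ⊆ univ.image Ψ := by
    intro z hz
    rw [Finset.mem_image] at hz
    obtain ⟨x, hx, rfl⟩ := hz
    have hx' := (Finset.mem_filter.1 hx).2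
    rw [Finset.mem_image]
    by_cases hJ : Nonempty J
    · obtain ⟨k0⟩ := hJ
      refine ⟨(fun u => (x : U ⊕ J → ZMod 2) (Sum.inl u), (x : U ⊕ J → ZMod 2) (Sum.inr k0)),
        Finset.mem_univ _, ?_⟩
      funext l
      rcases l with u | j
      · rfl
      · show (x : U ⊕ J → ZMod 2) (Sum.inr k0) = (x : U ⊕ J → ZMod 2) (Sum.inr j)
        have e1 := hx' k0 j
        have e2 := dbl ((x : U ⊕ J → ZMod 2) (Sum.inr j))
        linear_combination e1 - e2
    · refine ⟨(fun u => (x : U ⊕ J → ZMod 2) (Sum.inl u), 0), Finset.mem_univ _, ?_⟩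
      funext l
      rcases l with u | j
      · rfl
      · exact absurd ⟨j⟩ hJ
  have h2 := (Finset.card_le_card h1).trans (Finset.card_image_le)
  rw [Finset.card_image_of_injective _ Subtype.val_injective, Finset.card_univ] at h2
  simp only [Fintype.card_prod, Fintype.card_fun, ZMod.card] at h2
  calc (TT N).card * 2 ^ V ≤ (2 ^ Fintype.card U * 2) * 2 ^ V := Nat.mul_le_mul_right _ h2
    _ = 2 * 2 ^ (Fintype.card U + V) := by
        rw [pow_add]; ring
    _ ≤ 2 * 2 ^ Fintype.card J := by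
        apply Nat.mul_le_mul_left
        apply Nat.pow_le_pow_right (by norm_num)
        omega

theorem card_eq (N : U ⊕ J → U ⊕ J → ZMod 2) (t : J → ZMod 2) (m : ℕ) :
    (univ.filter fun x : Fin m → U ⊕ J → ZMod 2 =>
      IndJ (fun i k => x i (Sum.inr k)) ∧ OKg N t x).card =
    ((Zs (PB N t) m).filter fun z => IndJ (fun i k => (z i : U ⊕ J → ZMod 2) (Sum.inr k))).card := by
  have h1 : (univ.filter fun x : Fin m → U ⊕ J → ZMod 2 =>
      IndJ (fun i k => x i (Sum.inr k)) ∧ OKg N t x) =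
      ((Zs (PB N t) m).filter fun z =>
        IndJ (fun i k => (z i : U ⊕ J → ZMod 2) (Sum.inr k))).image
        (fun (z : Fin m → LL N) (i : Fin m) => (z i : U ⊕ J → ZMod 2)) := by
    ext x
    rw [Finset.mem_image, Finset.mem_filter]
    constructor
    · rintro ⟨-, h2, h3, h4⟩
      refine ⟨fun i => ⟨x i, (mem_LL N (x i)).2 (h3 i)⟩, ?_, rfl⟩
      rw [Finset.mem_filter]
      refine ⟨?_, h2⟩
      unfold Zs
      rw [Finset.mem_filter]
      exact ⟨Finset.mem_univ _, h4⟩
    · rintro ⟨z, hz, rfl⟩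
      rw [Finset.mem_filter] at hz
      obtain ⟨hz1, hz2⟩ := hz
      have hz3 := (Finset.mem_filter.1 hz1).2
      refine ⟨Finset.mem_univ _, hz2, fun i => (mem_LL N _).1 (z i).2, hz3⟩
  rw [h1, Finset.card_image_of_injective]
  intro z z' h
  funext i
  exact Subtype.ext (congrFun h i)

theorem final_alg (A Z c q Bd T l p r R : ℝ) (hA : A = Z - Bd) (hc : 0 ≤ c) (hq : 0 < q)
    (hl : 0 < l) (hp : 0 ≤ p)
    (hB0 : 0 ≤ Bd) (hB : Bd ≤ p * (T * q / l)) (h1 : 1 ≤ Z * c / q)
    (h2 : Z * c / q ≤ 1 + r * (R / l)) (v K δ : ℝ) (hv : 0 < v) (hT : T * v ≤ 2 * l)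
    (hR : R * v ≤ 8 * l) (hr : 0 ≤ r) (hK : K = 8 * r + 2 * (p * c)) (hδ : K / v ≤ δ) :
    |A * c / q - 1| ≤ δ := by
  have e1 : A * c / q = Z * c / q - Bd * c / q := by rw [hA]; ring
  have e2 : 0 ≤ Bd * c / q := by positivity
  have e3 : Bd * c / q ≤ p * (T * q / l) * c / q := by gcongr
  have e4 : p * (T * q / l) * c / q = p * c * (T / l) := by
    rw [div_eq_iff hq.ne']
    ring
  have e5 : T / l ≤ 2 / v := by
    rw [div_le_div_iff₀ hl hv]
    linarith
  have e6 : R / l ≤ 8 / v := by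
    rw [div_le_div_iff₀ hl hv]
    linarith
  have e7 : p * c * (T / l) ≤ p * c * (2 / v) := mul_le_mul_of_nonneg_left e5 (by positivity)
  have e8 : r * (R / l) ≤ r * (8 / v) := mul_le_mul_of_nonneg_left e6 hr
  have e9 : K / v = r * (8 / v) + p * c * (2 / v) := by rw [hK]; ring
  have e10 : 0 ≤ p * c * (2 / v) := by positivity
  have e11 : 0 ≤ r * (8 / v) := by positivity
  rw [abs_le]
  constructor <;> linarith

theorem t_LA2 : Pool.Agent.N848.AW.S_LA2 := by
  intro m δ hδ
  set r : ℝ := ∑ k ∈ range m, (2 : ℝ) ^ (k + 1).choose 2 with hr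
  have hr0 : 0 ≤ r := Finset.sum_nonneg fun k _ => by positivity
  set K : ℝ := 8 * r + 2 * ((2 : ℝ) ^ m * 2 ^ m.choose 2) with hK
  have hK0 : 0 < K := by positivity
  obtain ⟨V, hV⟩ := exists_pow_lt_of_lt_one (by positivity : (0 : ℝ) < δ / K)
    (by norm_num : (1 / 2 : ℝ) < 1)
  refine ⟨V, fun U J _ _ one N t a b hn hH => ?_⟩
  have hKV : K / 2 ^ V ≤ δ := by
    rw [lt_div_iff₀ hK0] at hV
    have : K / 2 ^ V = (1 / 2) ^ V * K := by rw [one_div, inv_pow]; ring
    rw [this]; exact hV.le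
  have hcl := card_LL N hH.rows
  have hclR : (Fintype.card (LL N) : ℝ) = 2 ^ Fintype.card J := by exact_mod_cast hcl
  have hnJ : (univ.filter fun j => t j = 1).card ≤ Fintype.card J := Finset.card_le_univ _
  have hzz := zz_bd (PB N t) (fun x y => PP_symm N t x y) (fun x => PP_alt N t x) m
  have hbad := bad_bd (m := m) (TT N)
  have hRd := Rd_bd N t a b hH.alt V hn
  have hTT := TT_bd N V (hn.trans hnJ)
  rw [card_eq]
  set A := (Zs (PB N t) m).filter fun z =>
    IndJ (fun i k => (z i : U ⊕ J → ZMod 2) (Sum.inr k)) with hA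
  set A' := (Zs (PB N t) m).filter fun z =>
    ¬ IndJ (fun i k => (z i : U ⊕ J → ZMod 2) (Sum.inr k)) with hA'
  have hsum : A.card + A'.card = (Zs (PB N t) m).card :=
    Finset.card_filter_add_card_filter_not _
  have hA'b : (A'.card : ℝ) ≤ 2 ^ m * ((TT N).card * (Fintype.card (LL N) : ℝ) ^ m /
      Fintype.card (LL N)) := by
    refine le_trans ?_ hbad
    have : A' ⊆ (univ.filter fun x : Fin m → LL N => ∃ a : Fin m → ZMod 2, (∃ i, a i ≠ 0) ∧
        ∑ i, a i • x i ∈ TT N) := by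
      intro z hz
      rw [hA', Finset.mem_filter] at hz
      obtain ⟨-, hz⟩ := hz
      unfold IndJ at hz
      push Not at hz
      obtain ⟨e, he, hz⟩ := hz
      rw [Finset.mem_filter]
      refine ⟨Finset.mem_univ _, e, he, ?_⟩
      unfold TT
      rw [Finset.mem_filter]
      refine ⟨Finset.mem_univ _, fun k l => ?_⟩
      have h1 : ∀ q : U ⊕ J, ((∑ i, e i • z i : LL N) : U ⊕ J → ZMod 2) q =
          ∑ i, e i * (z i : U ⊕ J → ZMod 2) q := by
        intro q
        rw [Submodule.coe_sum, Finset.sum_apply]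
        rfl
      rw [h1, h1, ← Finset.sum_add_distrib, ← hz k l]
      apply Finset.sum_congr rfl
      intro i _
      ring
    exact_mod_cast Finset.card_le_card this
  have hpow : (2 : ℝ) ^ (m * Fintype.card J) = (Fintype.card (LL N) : ℝ) ^ m := by
    rw [hclR, ← pow_mul, mul_comm]
  rw [hpow]
  have hl0 : (0 : ℝ) < Fintype.card (LL N) := by rw [hclR]; positivity
  refine final_alg A.card (Zs (PB N t) m).card (2 ^ m.choose 2)
    ((Fintype.card (LL N) : ℝ) ^ m) A'.card (TT N).card (Fintype.card (LL N)) (2 ^ m) r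
    (Rd (PB N t)).card ?_ (by positivity) (by positivity) hl0 (by positivity) (by positivity)
    hA'b hzz.1 hzz.2 (2 ^ V) K δ (by positivity) ?_ ?_ hr0 hK hKV
  · rw [← hsum]; push_cast; ring
  · rw [hclR]; exact_mod_cast hTT
  · rw [hclR]; exact_mod_cast hRd

end conc

end

end Pool.Agent.N691.AW
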